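import Pool.Agent.Helper43_MT100G.Bas
import Pool.Agent.Helper47_MT100G.Fps
import Pool.Agent.Helper87_MT100G.Prm
import Pool.Agent.Helper63_MT100G.Tu1
import Pool.Agent.Helper11_MTG.Per

/-! MT100-GEN, module MON: the monodromy matrices form a group which preserves the pairing. -/

set_option autoImplicit false

namespace Pool.Agent.MT100G.H97

open Matrix Polynomial Pool.Agent.MT100 Pool.Agent.Helper78_MT

variable {d : Type} [Fintype d] [DecidableEq d]

/-- the value of a rational polynomial -/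
noncomputable def qC (p : ℚ[X]) (x : ℂ) : ℂ := (p.map (algebraMap ℚ ℂ)).eval x

/-- the pairing of the columns -/
noncomputable def prr (J : Matrix d d ℚ[X]) (Y : ℂ → Matrix d d ℂ) (w : ℂ) : Matrix d d ℂ :=
  (Y w)ᵀ * J.map (fun p => qC p w⁻¹) * Y w

theorem qC_diff (p : ℚ[X]) {U : Set ℂ} (hU : ∀ w ∈ U, w ≠ 0) :
    DifferentiableOn ℂ (fun w => qC p w⁻¹) U := by
  unfold qC
  intro w hw
  exact ((p.map (algebraMap ℚ ℂ)).differentiable.differentiableAt.comp w
    (differentiableAt_inv (hU w hw))).differentiableWithinAt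

theorem pair_near (F : Fam d) : ∃ R : ℝ, ∀ w : ℂ, R < w.re →
    prr F.J (YH F.H F.N) w = qC F.s w⁻¹ • F.J0.map (algebraMap ℚ ℂ) := by
  have hH := fun i j => H43.gtype_near (F.sys.gH i j)
  choose δH hδH hHx using hH
  obtain ⟨δ, hδ, hδl⟩ : ∃ δ : ℝ, 0 < δ ∧ ∀ i j, δ ≤ δH i j := by
    have h1 : ∀ s : Finset (d × d), ∃ δ : ℝ, 0 < δ ∧ ∀ p ∈ s, δ ≤ δH p.1 p.2 := by
      intro s
      classical
      induction s using Finset.induction_on with
      | empty => exact ⟨1, one_pos, fun p hp => absurd hp (Finset.notMem_empty p)⟩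
      | insert a s ha ih =>
        obtain ⟨δ, h1, h3⟩ := ih
        refine ⟨min δ (δH a.1 a.2), lt_min h1 (hδH _ _), fun p hp => ?_⟩
        rcases Finset.mem_insert.mp hp with rfl | hp
        · exact min_le_right _ _
        · exact (min_le_left _ _).trans (h3 p hp)
    obtain ⟨δ, h1, h3⟩ := h1 Finset.univ
    exact ⟨δ, h1, fun i j => h3 (i, j) (Finset.mem_univ _)⟩
  refine ⟨1 / δ, fun w hw => ?_⟩
  have h0 : 0 < w.re := lt_trans (by positivity) hw
  have hw0 : w ≠ 0 := by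
    intro h
    rw [h] at h0
    simp at h0
  have hn : 1 / δ < ‖w‖ := lt_of_lt_of_le hw (Complex.re_le_norm w)
  have hn' : ‖w⁻¹‖ < δ := by
    rw [norm_inv, inv_lt_comm₀ (norm_pos_iff.mpr hw0) hδ, ← one_div]
    exact hn
  have hA : ∀ i j, H43.AC (F.H i j) w⁻¹ := fun i j =>
    (hHx i j w⁻¹ (lt_of_lt_of_le hn' (hδl i j))).1
  have hJ : ∀ i j, H43.AC ((F.J.map (fun p => (p : PowerSeries ℚ))) i j) w⁻¹ := fun i j =>
    (H43.ac_poly (F.J i j) w⁻¹).1
  have h1 := H43.ac_mmul (A := F.Hᵀ) (B := F.J.map (fun p => (p : PowerSeries ℚ)))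
    (fun i j => hA j i) hJ
  have h2 := H43.ac_mmul h1.1 hA
  have h3 : (F.H.map (fun f => evC f w⁻¹))ᵀ * F.J.map (fun p => qC p w⁻¹) *
      F.H.map (fun f => evC f w⁻¹) = qC F.s w⁻¹ • F.J0.map (algebraMap ℚ ℂ) := by
    have h4 : F.J.map (fun p => qC p w⁻¹) =
        (F.J.map (fun p => (p : PowerSeries ℚ))).map (fun f => evC f w⁻¹) := by
      ext i j
      rw [Matrix.map_apply, Matrix.map_apply, Matrix.map_apply]
      exact ((H43.ac_poly (F.J i j) w⁻¹).2).symm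
    have h5 : (F.H.map (fun f => evC f w⁻¹))ᵀ = F.Hᵀ.map (fun f => evC f w⁻¹) := rfl
    rw [h4, h5, ← h1.2, ← h2.2, F.pair]
    ext i j
    rw [Matrix.map_apply, Matrix.smul_apply, Matrix.smul_apply, Matrix.map_apply,
      Matrix.map_apply, smul_eq_mul, smul_eq_mul]
    have h6 : (PowerSeries.C (F.J0 i j) : PowerSeries ℚ) = ((C (F.J0 i j) : ℚ[X]) : PowerSeries ℚ) := by
      rw [Polynomial.coe_C]
    rw [h6, (H43.ac_mul (H43.ac_poly F.s w⁻¹).1 (H43.ac_poly _ w⁻¹).1).2,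
      (H43.ac_poly F.s w⁻¹).2, (H43.ac_poly _ w⁻¹).2, Polynomial.map_C, Polynomial.eval_C]
    rfl
  have h7 := H47.eN_aut F.sys.nil F.flat (-Complex.log w)
  have h7' : (eN F.N (-Complex.log w))ᵀ * F.J0.map (algebraMap ℚ ℂ) * eN F.N (-Complex.log w) =
    F.J0.map (algebraMap ℚ ℂ) := h7
  unfold prr YH
  rw [Matrix.transpose_mul]
  calc (eN F.N (-Complex.log w))ᵀ * (F.H.map (fun f => evC f w⁻¹))ᵀ *
        F.J.map (fun p => qC p w⁻¹) * (F.H.map (fun f => evC f w⁻¹) * eN F.N (-Complex.log w))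
      = (eN F.N (-Complex.log w))ᵀ * ((F.H.map (fun f => evC f w⁻¹))ᵀ *
        F.J.map (fun p => qC p w⁻¹) * F.H.map (fun f => evC f w⁻¹)) *
          eN F.N (-Complex.log w) := by
        simp only [Matrix.mul_assoc]
    _ = qC F.s w⁻¹ • F.J0.map (algebraMap ℚ ℂ) := by
        rw [h3, Matrix.mul_smul, Matrix.smul_mul, h7']

/-- the pairing is preserved by one step -/
theorem pair_step (F : Fam d) {x y : ℂ × ℝ × (ℂ → Matrix d d ℂ)}
    (h : Stp F.q F.B Set.univ x y)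
    (hx : ∀ w ∈ Metric.ball x.1 x.2.1,
      prr F.J x.2.2 w = qC F.s w⁻¹ • F.J0.map (algebraMap ℚ ℂ)) :
    ∀ w ∈ Metric.ball y.1 y.2.1,
      prr F.J y.2.2 w = qC F.s w⁻¹ • F.J0.map (algebraMap ℚ ℂ) := by
  obtain ⟨-, h2, -, -, h5, h6⟩ := h
  have hne : ∀ w ∈ Metric.ball y.1 y.2.1, w ≠ 0 := fun w hw => (h2.reg w hw).1
  have hdY := fun a b => H87.solOn_differentiableOn h2 a b
  intro w hw
  ext i j
  have hd : DifferentiableOn ℂ (fun w => prr F.J y.2.2 w i j -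
      (qC F.s w⁻¹ • F.J0.map (algebraMap ℚ ℂ)) i j) (Metric.ball y.1 y.2.1) := by
    refine DifferentiableOn.sub ?_ ?_
    · have h7 : ∀ w, prr F.J y.2.2 w i j =
          ∑ k, (∑ l, y.2.2 w l i * qC (F.J l k) w⁻¹) * y.2.2 w k j := by
        intro w
        unfold prr
        rw [Matrix.mul_apply]
        refine Finset.sum_congr rfl fun k _ => ?_
        rw [Matrix.mul_apply]
        rfl
      rw [show (fun w => prr F.J y.2.2 w i j) = _ from funext h7]
      refine DifferentiableOn.fun_sum fun k _ => DifferentiableOn.mul ?_ (hdY k j)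
      exact DifferentiableOn.fun_sum fun l _ => (hdY l i).mul (qC_diff _ hne)
    · simp only [Matrix.smul_apply, smul_eq_mul]
      exact (qC_diff _ hne).mul (differentiableOn_const _)
  have h8 := H87.eqOn_zero_of_open Metric.isOpen_ball (convex_ball _ _).isPreconnected hd
    (Metric.isOpen_ball.inter Metric.isOpen_ball) h5 Set.inter_subset_right (by
      intro w hw
      have h9 := hx w hw.1
      have h10 : prr F.J y.2.2 w = prr F.J x.2.2 w := by
        unfold prr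
        rw [h6 w hw]
      rw [h10, h9, sub_self])
  exact sub_eq_zero.mp (h8 w hw)

theorem pair_cnt (F : Fam d) {x y : ℂ × ℝ × (ℂ → Matrix d d ℂ)}
    (h : Cnt F.q F.B Set.univ x y)
    (hx : ∀ w ∈ Metric.ball x.1 x.2.1,
      prr F.J x.2.2 w = qC F.s w⁻¹ • F.J0.map (algebraMap ℚ ℂ)) :
    ∀ w ∈ Metric.ball y.1 y.2.1,
      prr F.J y.2.2 w = qC F.s w⁻¹ • F.J0.map (algebraMap ℚ ℂ) := by
  induction h with
  | refl => exact hx
  | tail _ hbc ih => exact pair_step F hbc ih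

theorem stp_act {q : ℤ[X]} {B : Matrix d d ℤ[X]} {U : Set ℂ}
    {x y : ℂ × ℝ × (ℂ → Matrix d d ℂ)} (h : Stp q B U x y) (g : Matrix d d ℂ)
    (hg : IsUnit g.det) :
    Stp q B U (x.1, x.2.1, fun w => x.2.2 w * g) (y.1, y.2.1, fun w => y.2.2 w * g) := by
  obtain ⟨h1, h2, h3, h4, h5, h6⟩ := h
  refine ⟨H63.solOn_mul h1 g hg, H63.solOn_mul h2 g hg, h3, h4, h5, fun w hw => ?_⟩
  show x.2.2 w * g = y.2.2 w * g
  rw [h6 w hw]

theorem cnt_act {q : ℤ[X]} {B : Matrix d d ℤ[X]} {U : Set ℂ}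
    {x y : ℂ × ℝ × (ℂ → Matrix d d ℂ)} (h : Cnt q B U x y) (g : Matrix d d ℂ)
    (hg : IsUnit g.det) :
    Cnt q B U (x.1, x.2.1, fun w => x.2.2 w * g) (y.1, y.2.1, fun w => y.2.2 w * g) := by
  induction h with
  | refl => exact Relation.ReflTransGen.refl
  | tail _ hbc ih => exact ih.tail (stp_act hbc g hg)

theorem qC_ne (p : ℚ[X]) (hp : p ≠ 0) : ∀ᶠ c : ℝ in Filter.atTop, qC p ((c : ℂ))⁻¹ ≠ 0 := by
  have hp0 : p.map (algebraMap ℚ ℂ) ≠ 0 :=
    (Polynomial.map_ne_zero_iff (algebraMap ℚ ℂ).injective).mpr hp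
  have hfin : Set.Finite {x : ℂ | (p.map (algebraMap ℚ ℂ)).IsRoot x} :=
    Polynomial.finite_setOfPred_isRoot hp0
  have hfin' : Set.Finite {c : ℝ | (p.map (algebraMap ℚ ℂ)).IsRoot ((c : ℂ))⁻¹} := by
    refine hfin.preimage ?_
    intro a _ b _ hab
    have h1 : ((a : ℂ))⁻¹ = ((b : ℂ))⁻¹ := hab
    have h2 := inv_injective h1
    exact_mod_cast h2
  obtain ⟨M, hM⟩ := hfin'.bddAbove
  filter_upwards [Filter.eventually_gt_atTop M] with c hc h0
  exact absurd (hM h0) (not_le.mpr hc)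

/-- MON -/
theorem mon_stmt : MonStmt := by
  intro d _ _ F
  obtain ⟨R, hR, hsol, -⟩ := H43.bas d F.H F.K F.N F.q F.B F.sys
  obtain ⟨R', hpair⟩ := pair_near F
  have hbase : ∀ᶠ c : ℝ in Filter.atTop, SolOn F.q F.B (c : ℂ) 1 (YH F.H F.N) := by
    filter_upwards [Filter.eventually_gt_atTop (R + 1)] with c hc
    refine hsol c 1 one_pos fun w hw => ?_
    rw [Metric.mem_ball, dist_eq_norm] at hw
    have h1 : |(w - c).re| ≤ ‖w - c‖ := Complex.abs_re_le_norm _
    have h2 : (w - (c : ℂ)).re = w.re - c := by simp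
    rw [h2] at h1
    have h3 := (abs_le.mp (h1.trans hw.le)).1
    show R < w.re
    linarith
  have hball : ∀ᶠ c : ℝ in Filter.atTop, ∀ w ∈ Metric.ball ((c : ℂ)) 1,
      prr F.J (YH F.H F.N) w = qC F.s w⁻¹ • F.J0.map (algebraMap ℚ ℂ) := by
    filter_upwards [Filter.eventually_gt_atTop (R' + 1)] with c hc
    intro w hw
    rw [Metric.mem_ball, dist_eq_norm] at hw
    have h1 : |(w - c).re| ≤ ‖w - c‖ := Complex.abs_re_le_norm _
    have h2 : (w - (c : ℂ)).re = w.re - c := by simp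
    rw [h2] at h1
    have h3 := (abs_le.mp (h1.trans hw.le)).1
    exact hpair w (by linarith)
  have hsub : mon F.H F.N F.q F.B Set.univ ⊆ Aut F.J0 := by
    intro g hg
    have hg' : ∀ᶠ c : ℝ in Filter.atTop, Cnt F.q F.B Set.univ ((c : ℂ), 1, YH F.H F.N)
      ((c : ℂ), 1, fun w => YH F.H F.N w * g) := hg
    obtain ⟨c, hc1, hc2, hc3⟩ := (hg'.and (hball.and (qC_ne F.s F.s_ne))).exists
    have h1 := pair_cnt F hc1 hc2 (c : ℂ) (Metric.mem_ball_self one_pos)
    have h2 := hc2 (c : ℂ) (Metric.mem_ball_self one_pos)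
    have h3 : prr F.J (fun w => YH F.H F.N w * g) (c : ℂ) =
        gᵀ * prr F.J (YH F.H F.N) (c : ℂ) * g := by
      unfold prr
      rw [Matrix.transpose_mul]
      simp only [Matrix.mul_assoc]
    have h1' : prr F.J (fun w => YH F.H F.N w * g) (c : ℂ) =
      qC F.s ((c : ℂ))⁻¹ • F.J0.map (algebraMap ℚ ℂ) := h1
    rw [h3, h2, Matrix.mul_smul, Matrix.smul_mul] at h1'
    have h4 := smul_right_injective (Matrix d d ℂ) hc3 h1'
    exact h4
  have hdet : ∀ g ∈ mon F.H F.N F.q F.B Set.univ, IsUnit g.det := fun g hg =>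
    H63.aut_det F.J0 F.unit g (hsub hg)
  refine ⟨hsub, ?_, ?_, ?_⟩
  · show ∀ᶠ c : ℝ in Filter.atTop, Cnt F.q F.B Set.univ ((c : ℂ), 1, YH F.H F.N)
      ((c : ℂ), 1, fun w => YH F.H F.N w * 1)
    refine Filter.Eventually.of_forall fun c => ?_
    have : (fun w => YH F.H F.N w * 1) = YH F.H F.N := by
      funext w
      rw [mul_one]
    rw [this]
    exact Relation.ReflTransGen.refl
  · intro a ha b hb
    have ha' : ∀ᶠ c : ℝ in Filter.atTop, Cnt F.q F.B Set.univ ((c : ℂ), 1, YH F.H F.N)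
      ((c : ℂ), 1, fun w => YH F.H F.N w * a) := ha
    have hb' : ∀ᶠ c : ℝ in Filter.atTop, Cnt F.q F.B Set.univ ((c : ℂ), 1, YH F.H F.N)
      ((c : ℂ), 1, fun w => YH F.H F.N w * b) := hb
    show ∀ᶠ c : ℝ in Filter.atTop, Cnt F.q F.B Set.univ ((c : ℂ), 1, YH F.H F.N)
      ((c : ℂ), 1, fun w => YH F.H F.N w * (a * b))
    filter_upwards [ha', hb'] with c h1 h2
    have h3 := cnt_act h1 b (hdet b hb)
    have h4 : (fun w => YH F.H F.N w * (a * b)) = fun w => YH F.H F.N w * a * b := by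
      funext w
      rw [Matrix.mul_assoc]
    rw [h4]
    exact h2.trans h3
  · intro a ha
    have ha' : ∀ᶠ c : ℝ in Filter.atTop, Cnt F.q F.B Set.univ ((c : ℂ), 1, YH F.H F.N)
      ((c : ℂ), 1, fun w => YH F.H F.N w * a) := ha
    show ∀ᶠ c : ℝ in Filter.atTop, Cnt F.q F.B Set.univ ((c : ℂ), 1, YH F.H F.N)
      ((c : ℂ), 1, fun w => YH F.H F.N w * a⁻¹)
    filter_upwards [ha'] with c h1
    have hu : IsUnit a⁻¹.det := by
      rw [Matrix.det_nonsing_inv]
      exact (hdet a ha).ringInverse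
    have h3 := cnt_act (H11.cnt_symm h1) a⁻¹ hu
    have h4 : (fun w => YH F.H F.N w * a * a⁻¹) = YH F.H F.N := by
      funext w
      rw [Matrix.mul_assoc, Matrix.mul_nonsing_inv _ (hdet a ha), mul_one]
    have h5 : Cnt F.q F.B Set.univ ((c : ℂ), 1, fun w => YH F.H F.N w * a * a⁻¹)
      ((c : ℂ), 1, fun w => YH F.H F.N w * a⁻¹) := h3
    rw [h4] at h5
    exact h5

end Pool.Agent.MT100G.H97
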