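import Pool.Agent.MT100G.Stmts
import Pool.Agent.MT100.Main

/-! MT100-GEN: assembly of the main theorem. -/

set_option autoImplicit false

namespace Pool.Agent.MT100G.H97

open Matrix Pool.Agent.MT100 Pool.Agent.Helper78_MT

universe u v

variable {d : Type} [Fintype d] [DecidableEq d]

/-- the form with the coefficients `t` -/
noncomputable def frm (t : (Fin 4 → d) → ℚ) (x : Fin 4 → d → ℂ) : ℂ :=
  ∑ β, (t β : ℂ) * ∏ j, x j (β j)

theorem frm_add (t : (Fin 4 → d) → ℚ) (x : Fin 4 → d → ℂ) (i : Fin 4) (y z : d → ℂ) :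
    frm t (Function.update x i (y + z)) =
      frm t (Function.update x i y) + frm t (Function.update x i z) := by
  unfold frm
  rw [← Finset.sum_add_distrib]
  refine Finset.sum_congr rfl fun β _ => ?_
  rw [← mul_add]
  congr 1
  rw [← Finset.mul_prod_erase _ _ (Finset.mem_univ i),
    ← Finset.mul_prod_erase Finset.univ (fun j => Function.update x i y j (β j))
      (Finset.mem_univ i),
    ← Finset.mul_prod_erase Finset.univ (fun j => Function.update x i z j (β j))
      (Finset.mem_univ i)]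
  have h : ∀ u : d → ℂ, ∏ j ∈ Finset.univ.erase i, Function.update x i u j (β j) =
      ∏ j ∈ Finset.univ.erase i, x j (β j) := by
    intro u
    refine Finset.prod_congr rfl fun j hj => ?_
    rw [Function.update_of_ne (Finset.ne_of_mem_erase hj)]
  rw [h, h, h, Function.update_self, Function.update_self, Function.update_self, Pi.add_apply]
  ring

theorem frm_smul (t : (Fin 4 → d) → ℚ) (x : Fin 4 → d → ℂ) (i : Fin 4) (c : ℂ) (y : d → ℂ) :
    frm t (Function.update x i (c • y)) = c * frm t (Function.update x i y) := by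
  unfold frm
  rw [Finset.mul_sum]
  refine Finset.sum_congr rfl fun β _ => ?_
  rw [← Finset.mul_prod_erase _ _ (Finset.mem_univ i),
    ← Finset.mul_prod_erase Finset.univ (fun j => Function.update x i y j (β j))
      (Finset.mem_univ i)]
  have h : ∀ u : d → ℂ, ∏ j ∈ Finset.univ.erase i, Function.update x i u j (β j) =
      ∏ j ∈ Finset.univ.erase i, x j (β j) := by
    intro u
    refine Finset.prod_congr rfl fun j hj => ?_
    rw [Function.update_of_ne (Finset.ne_of_mem_erase hj)]
  rw [h, h, Function.update_self, Function.update_self, Pi.smul_apply, smul_eq_mul]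
  ring

/-- a form which vanishes on generators vanishes on the spans -/
theorem frm_span (t : (Fin 4 → d) → ℚ) (G : Matrix d d ℂ) (S : Fin 4 → Set (d → ℂ))
    (h : ∀ x : Fin 4 → d → ℂ, (∀ j, x j ∈ S j) → frm t (fun j => G *ᵥ x j) = 0)
    (x : Fin 4 → d → ℂ) (hx : ∀ j, x j ∈ Submodule.span ℂ (S j)) :
    frm t (fun j => G *ᵥ x j) = 0 := by
  have key : ∀ s : Finset (Fin 4), ∀ x : Fin 4 → d → ℂ,
      (∀ j ∈ s, x j ∈ Submodule.span ℂ (S j)) → (∀ j, j ∉ s → x j ∈ S j) →
      frm t (fun j => G *ᵥ x j) = 0 := by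
    intro s
    induction s using Finset.induction_on with
    | empty => exact fun x _ hx => h x fun j => hx j (Finset.notMem_empty j)
    | insert i s hi ih =>
      intro x hx1 hx2
      have hupd : ∀ y : d → ℂ, (fun j => G *ᵥ Function.update x i y j) =
          Function.update (fun j => G *ᵥ x j) i (G *ᵥ y) := by
        intro y
        funext j
        by_cases hj : j = i
        · subst hj
          rw [Function.update_self, Function.update_self]
        · rw [Function.update_of_ne hj, Function.update_of_ne hj]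
      have hgen : ∀ y ∈ Submodule.span ℂ (S i),
          frm t (Function.update (fun j => G *ᵥ x j) i (G *ᵥ y)) = 0 := by
        intro y hy
        induction hy using Submodule.span_induction with
        | mem y hy =>
          rw [← hupd]
          refine ih _ ?_ ?_
          · intro j hj
            have hji : j ≠ i := fun h => hi (h ▸ hj)
            rw [Function.update_of_ne hji]
            exact hx1 j (Finset.mem_insert_of_mem hj)
          · intro j hj
            by_cases hji : j = i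
            · subst hji
              rw [Function.update_self]
              exact hy
            · rw [Function.update_of_ne hji]
              exact hx2 j fun h => (Finset.mem_insert.1 h).elim hji hj
        | zero =>
          have := frm_smul t (fun j => G *ᵥ x j) i 0 0
          rw [smul_zero, zero_mul] at this
          rw [Matrix.mulVec_zero]
          exact this
        | add y z _ _ hy hz =>
          rw [Matrix.mulVec_add, frm_add, hy, hz, add_zero]
        | smul c y _ hy =>
          rw [Matrix.mulVec_smul, frm_smul, hy, mul_zero]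
      have := hgen (x i) (hx1 i (Finset.mem_insert_self i s))
      rwa [Function.update_eq_self] at this
  exact key Finset.univ x (fun j _ => hx j) fun j hj => absurd (Finset.mem_univ j) hj

/-- the form on vectors of the filtration -/
theorem frm_fil (t : (Fin 4 → d) → ℚ) (V : ℕ → Submodule ℂ (d → ℂ)) (w : ℕ)
    (h : ∀ (p : Fin 4 → ℕ) (x : Fin 4 → d → ℂ), (∀ j, x j ∈ V (p j)) → 2 * w < ∑ j, p j →
      ∑ β, (t β : ℂ) * ∏ j, x j (β j) = 0)
    (q : Fin 4 → ℕ) (hq : 2 * w < ∑ j, q j) (x : Fin 4 → d → ℂ)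
    (hx : ∀ j, x j ∈ ⨆ p' ∈ Set.Ici (q j), V p') : frm t x = 0 := by
  have h1 := frm_span t 1 (fun j => {y | ∃ p', q j ≤ p' ∧ y ∈ V p'}) ?_ x ?_
  · simpa only [one_mulVec] using h1
  · intro y hy
    simp only [one_mulVec]
    choose p hp hy2 using hy
    exact h p y hy2 (lt_of_lt_of_le hq (Finset.sum_le_sum fun j _ => hp j))
  · intro j
    refine (?_ : (⨆ p' ∈ Set.Ici (q j), V p') ≤ _) (hx j)
    refine iSup₂_le fun p' hp' => ?_
    intro y hy
    exact Submodule.subset_span ⟨p', hp', hy⟩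

/-- an isometry of `E` comes from an isometry of `J0` -/
theorem exists_g (F : Fam d) {P : Matrix d d ℂ} (hP : IsUnit P.det) {E : Matrix d d ℚ}
    (hfl : Flat F P E) {G : Matrix d d ℂ} (hG : G ∈ Aut E) :
    ∃ g ∈ Aut F.J0, G * P = P * gᵀ := by
  obtain ⟨c, hc, hE⟩ := hfl
  have hG' : Gᵀ * E.map (algebraMap ℚ ℂ) * G = E.map (algebraMap ℚ ℂ) := hG
  set E' := E.map (algebraMap ℚ ℂ) with hE'
  set Ji := (F.J0⁻¹).map (algebraMap ℚ ℂ) with hJi
  set J := F.J0.map (algebraMap ℚ ℂ) with hJ
  have hJJ : J * Ji = 1 := by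
    rw [hJ, hJi, ← Matrix.map_mul, Matrix.mul_nonsing_inv _ F.unit]
    exact Matrix.map_one _ (map_zero _) (map_one _)
  have hJJ' : Ji * J = 1 := by
    rw [hJ, hJi, ← Matrix.map_mul, Matrix.nonsing_inv_mul _ F.unit]
    exact Matrix.map_one _ (map_zero _) (map_one _)
  set Q := P⁻¹ * G * P with hQ
  have hPQ : G * P = P * Q := by
    rw [hQ, ← Matrix.mul_assoc, ← Matrix.mul_assoc, Matrix.mul_nonsing_inv _ hP, Matrix.one_mul]
  have h1 : Qᵀ * (Pᵀ * E' * P) * Q = Pᵀ * E' * P := by
    have e1 : Qᵀ * (Pᵀ * E' * P) * Q = (P * Q)ᵀ * E' * (P * Q) := by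
      rw [Matrix.transpose_mul P Q]
      simp only [Matrix.mul_assoc]
    rw [e1, ← hPQ, Matrix.transpose_mul]
    have e2 : Pᵀ * Gᵀ * E' * (G * P) = Pᵀ * (Gᵀ * E' * G) * P := by
      simp only [Matrix.mul_assoc]
    rw [e2, hG']
  have h2 : Qᵀ * Ji * Q = Ji := by
    rw [hE, Matrix.mul_smul, Matrix.smul_mul] at h1
    exact smul_right_injective _ hc h1
  refine ⟨Qᵀ, ?_, by rw [Matrix.transpose_transpose]; exact hPQ⟩
  show (Qᵀ)ᵀ * J * Qᵀ = J
  rw [Matrix.transpose_transpose]
  -- `Qᵀ * Ji * Q * J = 1`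
  have h3 : (Qᵀ * Ji) * (Q * J) = 1 := by
    rw [← Matrix.mul_assoc, h2, hJJ']
  have h4 : (Q * J) * (Qᵀ * Ji) = 1 := mul_eq_one_comm.1 h3
  calc Q * J * Qᵀ = Q * J * Qᵀ * (Ji * J) := by rw [hJJ', Matrix.mul_one]
    _ = (Q * J) * (Qᵀ * Ji) * J := by simp only [Matrix.mul_assoc]
    _ = J := by rw [h4, Matrix.one_mul]

/-- the weight is odd -/
theorem odd_w (F : Fam d) (hd : 0 < Fintype.card d) {P : Matrix d d ℂ} (hP : IsUnit P.det)
    {E : Matrix d d ℚ} (hfl : Flat F P E) {w : ℕ} {V : ℕ → Submodule ℂ (d → ℂ)}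
    (hV : PolHodge w E V) : Odd w := by
  by_contra hcon
  rw [Nat.not_odd_iff_even] at hcon
  have h1 : Eᵀ = E := by rw [hV.symm, hcon.neg_one_pow, one_smul]
  obtain ⟨c, hc, hE⟩ := hfl
  have hs : (F.J0⁻¹)ᵀ = -F.J0⁻¹ := by
    rw [Matrix.transpose_nonsing_inv, F.skew]
    exact Matrix.inv_eq_right_inv (by
      rw [neg_mul_neg, Matrix.mul_nonsing_inv _ F.unit])
  set E' := E.map (algebraMap ℚ ℂ) with hE'
  have h2 : E'ᵀ = E' := by rw [hE', ← Matrix.transpose_map, h1]
  have h3 : (Pᵀ * E' * P)ᵀ = Pᵀ * E' * P := by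
    rw [Matrix.transpose_mul, Matrix.transpose_mul, Matrix.transpose_transpose, h2,
      Matrix.mul_assoc]
  have h4 : (Pᵀ * E' * P)ᵀ = -(Pᵀ * E' * P) := by
    rw [hE, Matrix.transpose_smul, ← Matrix.transpose_map, hs]
    ext i j
    simp
  have h5 : Pᵀ * E' * P = 0 := by
    have h6 : Pᵀ * E' * P = -(Pᵀ * E' * P) := h3.symm.trans h4
    ext i j
    have := congrFun (congrFun h6 i) j
    rw [Matrix.neg_apply] at this
    rw [Matrix.zero_apply]
    linear_combination this / 2
  have h6 : (Pᵀ * E' * P).det ≠ 0 := by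
    rw [Matrix.det_mul, Matrix.det_mul, Matrix.det_transpose]
    have h7 : E'.det ≠ 0 := by
      have h8 := hV.nondeg
      rw [hE', ← RingHom.mapMatrix_apply, ← RingHom.map_det]
      exact (map_ne_zero _).2 h8.ne_zero
    exact mul_ne_zero (mul_ne_zero hP.ne_zero h7) hP.ne_zero
  apply h6
  rw [h5]
  have : Nonempty d := Fintype.card_pos_iff.1 hd
  exact Matrix.det_zero

theorem mainG (hL : ElgStmt) (hH : HdfStmt.{u}) (hLad : LadStmt.{u, v}) : MainGStmt.{u, v} := by
  intro d _ _ F hd w lev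
  set A : Set (Fin 4 → d) := {a | 2 * w < ∑ j, lev (a j)} with hA
  obtain ⟨n1, hn1⟩ := hL d F (by omega) 4 A
  refine ⟨n1, fun P hP => ?_⟩
  set S : Set ℕ := {n | ∃ (E : Matrix d d ℚ) (V : ℕ → Submodule ℂ (d → ℂ)), PolHodge w E V ∧
    Flat F P E ∧ HasFil F lev P n V ∧
    ¬ ∀ (K : Type u) [Field K] [CharZero K], mtGroup w V K = similitudes E K} with hS
  have hmain : ∀ n ∈ S, ∃ t : (Fin 4 → d) → ℚ,
      (∀ a ∈ A, ∑ β, (t β : ℂ) * ∏ j, perG F P n (a j) (β j) = 0) ∧
      ∃ g ∈ Aut F.J0, ∃ a ∈ A,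
        ∑ β, (t β : ℂ) * ∏ j, (P *ᵥ (YH F.H F.N n * g) (a j)) (β j) ≠ 0 := by
    rintro n ⟨E, V, hV, hfl, hfil, hK⟩
    obtain ⟨t, ht1, G, hG, p, x, hx, hp, hne⟩ :=
      hH d w E V (odd_w F (by omega) hP hfl hV) hV (by omega) hK
    refine ⟨t, ?_, ?_⟩
    · intro a ha
      refine frm_fil t V w ht1 (fun j => lev (a j)) ha (fun j => perG F P n (a j)) fun j => ?_
      rw [hfil (lev (a j))]
      exact Submodule.subset_span ⟨a j, le_rfl, rfl⟩
    · obtain ⟨g, hg, hgP⟩ := exists_g F hP hfl hG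
      refine ⟨g, hg, ?_⟩
      by_contra hcon
      push Not at hcon
      apply hne
      refine frm_span t G (fun j => {y | ∃ a : d, p j ≤ lev a ∧ y = perG F P n a}) ?_ x ?_
      · intro y hy
        choose a ha1 ha2 using hy
        have h1 := hcon a (show 2 * w < ∑ j, lev (a j) from
          lt_of_lt_of_le hp (Finset.sum_le_sum fun j _ => ha1 j))
        have h2 : ∀ j, G *ᵥ y j = P *ᵥ (YH F.H F.N n * g) (a j) := by
          intro j
          rw [ha2 j, perG, Matrix.mulVec_mulVec, hgP, ← Matrix.mulVec_mulVec]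
          congr 1
          rw [Matrix.mulVec_transpose]
          rfl
        unfold frm
        simp only [h2]
        exact h1
      · intro j
        rw [← hfil (p j)]
        exact Submodule.mem_iSup_of_mem (p j) (Submodule.mem_iSup_of_mem
          (Set.mem_Ici.2 (le_refl _)) (hx j))
  obtain ⟨h1, h2⟩ := hn1 P hP S hmain
  refine ⟨S, h2, h1, ?_⟩
  intro n hn E V hV hfl hfil
  have hmt : ∀ (K : Type u) [Field K] [CharZero K], mtGroup w V K = similitudes E K := by
    by_contra hcon
    exact hn ⟨E, V, hV, hfl, hfil, hcon⟩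
  refine ⟨hmt, ?_⟩
  intro ℓ _ Γ _ ρ hρ K _ _ _
  rw [hmt K]
  have hodd := odd_w F (by omega) hP hfl hV
  have hsym : Eᵀ = -E := by
    rw [hV.symm, hodd.neg_one_pow, neg_smul, one_smul]
  exact hLad d E ℚ_[ℓ] Γ ρ hsym hV.nondeg hd hρ K

end Pool.Agent.MT100G.H97
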