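import Pool.Agent.Helper97_MTG.Mon
import Pool.Agent.Helper97_MTG.Main
import Pool.Agent.Helper67_MTG.Ode
import Pool.Agent.Helper47_MT100G.Uni
import Pool.Agent.Helper19_MT100G.Hpl
import Pool.Agent.Helper90_MT100G.Tup
import Pool.Agent.Helper15_MT100G.Nrm
import Pool.Agent.Helper78_MTG.Com
import Pool.Agent.Helper98_MTG.Prs
import Pool.Agent.Helper58_MTG.Zsa
import Pool.Agent.Helper58_MTG.Zsb
import Pool.Agent.Helper76_MT100G.Gfv
import Pool.Agent.Helper43_MT100G.Gfm
import Pool.Agent.Helper2_MTG.Num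
import Pool.Agent.Helper29_MTG.Elg
import Pool.Agent.Helper46_MTG.Hdf
import Pool.Agent.Helper39_MT.Gal
import Pool.Agent.Helper51_MT.Wrap
import Pool.Agent.Helper58_MT.Stm
import Pool.Agent.Helper83_MT.Sys
import Pool.Agent.Helper47_MT.Eva
import Pool.Agent.Helper65_MT100.Vag
import Pool.Agent.Helper27_MT.Trp
import Pool.Agent.Helper78_M100.Lad5

/-! Assembly of MT100-GEN. -/

set_option autoImplicit false

namespace Pool.Agent.MT100G.H97

open Matrix Polynomial Pool.Agent.MT100 Pool.Agent.Helper78_MT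

universe u v

theorem eva' : EvaStmt := MT100.H47.eva
theorem vag' : VagStmt := Pool.Agent.Helper65MT100.vag
theorem bas' : BasStmt := H43.bas
theorem hpl' : HplStmt := H19.hpl H47.uni bas' mon_stmt
theorem tu1' : Tu1Stmt := H63.tu1 mon_stmt
theorem tu2' : Tu2Stmt := H90.tu2 H67.ode H47.uni bas' H11.per
theorem tu3' : Tu3Stmt := H90.tu3 H67.ode H47.uni bas' H11.per hpl'
theorem prm' : PrmStmt := H87.prm bas'
theorem prs' : PrsStmt := H98.prs mon_stmt tu1' tu2' tu3' H15.nrm H78.com prm'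
theorem fps' : FpsStmt := H47.fps bas' vag' prs' eva'
theorem gfv' : GfvStmt :=
  H76.gfv H58.zsa H58.zsb Pool.Agent.Helper39_MT.gal Pool.Agent.Helper51_MT.sieStmt
    Pool.Agent.Helper58_MT.recStmt eva'
theorem gfm' : GfmStmt := H43.gfm gfv'
theorem num' : NumStmt := Pool.Agent.Helper2_MTG.num gfm' fps' MT100.H27.trg MT100.H83.sys eva'
theorem elg' : ElgStmt := H29.elg num' vag' bas'
theorem hdf' : HdfStmt.{u} := H46.hdf H15.nrm
theorem lad' : LadStmt.{u, v} := MT100.H78.lad

/-- the main theorem -/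
theorem mainGU : MainGStmt.{u, v} := mainG elg' hdf' lad'

end Pool.Agent.MT100G.H97
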